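import Mathlib

set_option autoImplicit false
set_option linter.unusedSectionVars false

open Topology

namespace Pool.Agent.Results.MP_427463_al.QuaternionQuotientCA

/-- CA-group: the centralizer of every nontrivial element is abelian. -/
def IsCA (G : Type) [Group G] : Prop :=
  ∀ g : G, g ≠ 1 → ∀ a b : G, a * g = g * a → b * g = g * b → a * b = b * a

abbrev Z2 := ℤ_[2]
abbrev Z4 := ZMod (2 ^ 2)

noncomputable abbrev c : Z2 →+* Z4 := PadicInt.toZModPow 2

lemma continuous_c : Continuous (c : Z2 → Z4) := by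
  refine continuous_of_continuousAt_zero c ?_
  rw [ContinuousAt, map_zero]
  refine Filter.Tendsto.mono_right ?_ (pure_le_nhds (0 : Z4))
  rw [Filter.tendsto_pure]
  have : Metric.ball (0 : Z2) (2 ^ (-(2 : ℤ))) ∈ 𝓝 (0 : Z2) := Metric.ball_mem_nhds _ (by positivity)
  filter_upwards [this] with x hx
  have h1 : x ∈ Ideal.span {((2 : ℕ) : Z2) ^ 2} := by
    rw [← PadicInt.norm_le_pow_iff_mem_span_pow]
    have : ‖x‖ < 2 ^ (-(2 : ℤ)) := by simpa using hx
    exact_mod_cast this.le
  rw [← PadicInt.ker_toZModPow] at h1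
  exact h1

/-- The data used in the construction. -/
structure Data (Q : Type) [Group Q] where
  z : Q
  χ : Q → Z4
  z_central : ∀ q, z * q = q * z
  z_sq : z * z = 1
  z_ne : z ≠ 1
  χ_mul : ∀ p q, χ (p * q) = χ p + χ q
  χ_two : ∀ p, χ p + χ p = 0
  χ_vals : ∀ p, χ p = 0 ∨ χ p = 2
  pow_z : ∀ q, q ≠ 1 → ∃ r : ℕ, q ^ r = z
  nonab : ∀ H : Subgroup Q, (∃ a ∈ H, ∃ b ∈ H, a * b ≠ b * a) →
    ∃ p ∈ H, ∃ j ∈ H, p * p = z ∧ j * j = z ∧ χ p ≠ χ j

section construction

variable {Q : Type} [Group Q] [Fintype Q] [DecidableEq Q] (D : Data Q)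

lemma χ_one : D.χ 1 = 0 := by
  have := D.χ_mul 1 1
  rw [mul_one] at this
  simpa using this

lemma χ_inv (q : Q) : D.χ q⁻¹ = D.χ q := by
  have h := D.χ_mul q q⁻¹
  rw [mul_inv_cancel, χ_one D] at h
  have h2 := D.χ_two q
  have : D.χ q + D.χ q⁻¹ = D.χ q + D.χ q := by rw [h2, ← h]
  exact add_left_cancel this

/-- quadratic form modulo four -/
noncomputable def E (v : Q → Z2) : Z4 := ∑ t, (c (v t)) ^ 2

lemma two_sum (h : Q → Z4) (hz : ∀ t, h (D.z * t) = h t) : 2 * ∑ t, h t = 0 := by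
  rw [Finset.mul_sum]
  refine Finset.sum_involution (fun t _ => D.z * t) ?_ ?_ ?_ ?_
  · intro t _
    rw [hz]
    have : ∀ s : Z4, 2 * s + 2 * s = 0 := by decide
    exact this _
  · intro t _ _ heq
    exact D.z_ne (by simpa using heq)
  · intro t _
    exact Finset.mem_univ _
  · intro t _
    rw [← mul_assoc, D.z_sq, one_mul]

def Odd' (v : Q → Z2) : Prop := ∀ t, v (D.z * t) = - v t

/-- right translation -/
def tr (q : Q) (v : Q → Z2) : Q → Z2 := fun t => v (t * q)

lemma E_tr (q : Q) (v : Q → Z2) : E (tr q v) = E v := by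
  unfold E tr
  exact Fintype.sum_equiv (Equiv.mulRight q) _ _ (fun t => rfl)

lemma E_add {v w : Q → Z2} (hv : Odd' D v) (hw : Odd' D w) : E (v + w) = E v + E w := by
  unfold E
  have h1 : ∀ t, (c ((v + w) t)) ^ 2 = (c (v t)) ^ 2 + (c (w t)) ^ 2 + 2 * (c (v t) * c (w t)) := by
    intro t
    rw [Pi.add_apply, map_add]
    ring
  simp only [h1]
  rw [Finset.sum_add_distrib, Finset.sum_add_distrib, ← Finset.mul_sum,
    two_sum D (fun t => c (v t) * c (w t)) (fun t => by
      rw [hv, hw, map_neg, map_neg, neg_mul_neg]), add_zero]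

lemma E_neg (v : Q → Z2) : E (-v) = E v := by
  unfold E
  simp

lemma odd_tr {q : Q} {v : Q → Z2} (hv : Odd' D v) : Odd' D (tr q v) := by
  intro t
  unfold tr
  rw [mul_assoc, hv]

lemma odd_add {v w : Q → Z2} (hv : Odd' D v) (hw : Odd' D w) : Odd' D (v + w) := by
  intro t
  rw [Pi.add_apply, hv, hw, Pi.add_apply, neg_add]

lemma odd_neg {v : Q → Z2} (hv : Odd' D v) : Odd' D (-v) := by
  intro t
  rw [Pi.neg_apply, hv, Pi.neg_apply]

def Cond (x : (Q → Z2) × Q) : Prop := Odd' D x.1 ∧ E x.1 = D.χ x.2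

def GG : Type := {x : (Q → Z2) × Q // Cond D x}

def mkG (v : Q → Z2) (q : Q) (h : Cond D (v, q)) : GG D := ⟨(v, q), h⟩

lemma cond_mul {x y : (Q → Z2) × Q} (hx : Cond D x) (hy : Cond D y) :
    Cond D (x.1 + tr x.2 y.1, x.2 * y.2) := by
  refine ⟨odd_add D hx.1 (odd_tr D hy.1), ?_⟩
  show E (x.1 + tr x.2 y.1) = D.χ (x.2 * y.2)
  rw [E_add D hx.1 (odd_tr D hy.1), E_tr, hx.2, hy.2, D.χ_mul]

lemma cond_inv {x : (Q → Z2) × Q} (hx : Cond D x) : Cond D (-(tr x.2⁻¹ x.1), x.2⁻¹) := by
  refine ⟨odd_neg D (odd_tr D hx.1), ?_⟩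
  show E (-(tr x.2⁻¹ x.1)) = D.χ x.2⁻¹
  rw [E_neg, E_tr, hx.2, χ_inv]

lemma cond_one : Cond D (0, 1) := by
  refine ⟨fun t => by simp, ?_⟩
  show E 0 = D.χ 1
  rw [χ_one]
  unfold E
  simp

noncomputable instance : Mul (GG D) :=
  ⟨fun x y => ⟨(x.1.1 + tr x.1.2 y.1.1, x.1.2 * y.1.2), cond_mul D x.2 y.2⟩⟩
noncomputable instance : Inv (GG D) := ⟨fun x => ⟨(-(tr x.1.2⁻¹ x.1.1), x.1.2⁻¹), cond_inv D x.2⟩⟩
noncomputable instance : One (GG D) := ⟨⟨(0, 1), cond_one D⟩⟩

noncomputable instance : Group (GG D) :=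
  Group.ofLeftAxioms
    (fun x y w => by
      apply Subtype.ext
      refine Prod.ext ?_ (mul_assoc _ _ _)
      show (x.1.1 + tr x.1.2 y.1.1) + tr (x.1.2 * y.1.2) w.1.1
        = x.1.1 + tr x.1.2 (y.1.1 + tr y.1.2 w.1.1)
      funext t
      simp only [tr, Pi.add_apply, add_assoc, mul_assoc])
    (fun x => by
      apply Subtype.ext
      refine Prod.ext ?_ (one_mul _)
      show (0 : Q → Z2) + tr 1 x.1.1 = x.1.1
      funext t
      simp [tr])
    (fun x => by
      apply Subtype.ext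
      refine Prod.ext ?_ (inv_mul_cancel _)
      show -(tr x.1.2⁻¹ x.1.1) + tr x.1.2⁻¹ x.1.1 = 0
      simp)

lemma mul_fst (x y : GG D) : (x * y).1.1 = x.1.1 + tr x.1.2 y.1.1 := rfl
lemma mul_snd (x y : GG D) : (x * y).1.2 = x.1.2 * y.1.2 := rfl
lemma one_val : (1 : GG D).1 = (0, 1) := rfl

/-- projection to `Q` -/
noncomputable def proj : GG D →* Q where
  toFun x := x.1.2
  map_one' := rfl
  map_mul' _ _ := rfl

lemma proj_apply (x : GG D) : proj D x = x.1.2 := rfl

lemma ext' {x y : GG D} (h1 : x.1.1 = y.1.1) (h2 : x.1.2 = y.1.2) : x = y :=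
  Subtype.ext (Prod.ext h1 h2)

/-- elements commuting with an element over `z` -/
lemma comm_z {u g : GG D} (hg : g.1.2 = D.z) (h : u * g = g * u) (t : Q) :
    2 * u.1.1 t = g.1.1 t - g.1.1 (t * u.1.2) := by
  have h1 := congrFun (congrArg (fun x : GG D => x.1.1) h) t
  simp only [mul_fst, Pi.add_apply, tr, hg] at h1
  have h2 : u.1.1 (t * D.z) = - u.1.1 t := by rw [← D.z_central]; exact u.2.1 t
  rw [h2] at h1
  linear_combination h1

lemma two_ne : (2 : Z2) ≠ 0 := by norm_num

lemma sum_sq {u g : GG D} (hg : g.1.2 = D.z) (h : u * g = g * u) (hq : u.1.2 * u.1.2 = D.z) :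
    2 * ∑ t, (u.1.1 t) ^ 2 = ∑ t, (g.1.1 t) ^ 2 := by
  have hT : ∑ t, g.1.1 t * g.1.1 (t * u.1.2) = 0 := by
    have h1 : ∑ t, g.1.1 t * g.1.1 (t * u.1.2) =
        ∑ t, g.1.1 (t * u.1.2) * g.1.1 (t * u.1.2 * u.1.2) := by
      symm
      exact Fintype.sum_equiv (Equiv.mulRight u.1.2) _ _ (fun t => rfl)
    have h2 : ∑ t, g.1.1 (t * u.1.2) * g.1.1 (t * u.1.2 * u.1.2) =
        - ∑ t, g.1.1 t * g.1.1 (t * u.1.2) := by
      rw [← Finset.sum_neg_distrib]
      refine Finset.sum_congr rfl fun t _ => ?_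
      rw [mul_assoc t, hq, ← D.z_central, g.2.1 t]
      ring
    rw [h2] at h1
    have h3 : 2 * ∑ t, g.1.1 t * g.1.1 (t * u.1.2) = 0 := by linear_combination h1
    exact (mul_eq_zero.1 h3).resolve_left two_ne
  have hsh : ∑ t, (g.1.1 (t * u.1.2)) ^ 2 = ∑ t, (g.1.1 t) ^ 2 :=
    Fintype.sum_equiv (Equiv.mulRight u.1.2) _ _ (fun t => rfl)
  apply mul_left_cancel₀ two_ne
  have h4 : 2 * (2 * ∑ t, (u.1.1 t) ^ 2) = ∑ t, (2 * u.1.1 t) ^ 2 := by
    rw [Finset.mul_sum, Finset.mul_sum]
    refine Finset.sum_congr rfl fun t _ => ?_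
    ring
  rw [h4]
  have h5 : ∑ t, (2 * u.1.1 t) ^ 2 = ∑ t, ((g.1.1 t) ^ 2 + (g.1.1 (t * u.1.2)) ^ 2
      + (-2) * (g.1.1 t * g.1.1 (t * u.1.2))) := by
    refine Finset.sum_congr rfl fun t _ => ?_
    rw [comm_z D hg h t]
    ring
  rw [h5, Finset.sum_add_distrib, Finset.sum_add_distrib, hsh, ← Finset.mul_sum, hT]
  ring

lemma E_eq (v : Q → Z2) : E v = c (∑ t, (v t) ^ 2) := by
  unfold E
  rw [map_sum]
  simp

/-- over `z` the centralizer is abelian -/
lemma cent_z {g : GG D} (hg : g.1.2 = D.z) (a b : GG D) (ha : a * g = g * a)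
    (hb : b * g = g * b) : a * b = b * a := by
  by_cases hab : a.1.2 * b.1.2 = b.1.2 * a.1.2
  · -- both products commute with g and have the same projection
    have h1 : (a * b) * g = g * (a * b) := by
      rw [mul_assoc, hb, ← mul_assoc, ha, mul_assoc]
    have h2 : (b * a) * g = g * (b * a) := by
      rw [mul_assoc, ha, ← mul_assoc, hb, mul_assoc]
    apply ext' D
    · funext t
      apply mul_left_cancel₀ two_ne
      rw [comm_z D hg h1 t, comm_z D hg h2 t, mul_snd, mul_snd, hab]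
    · exact hab
  · exfalso
    let H : Subgroup Q := (Subgroup.centralizer {g}).map (proj D)
    have haH : a.1.2 ∈ H := ⟨a, by
      rw [SetLike.mem_coe, Subgroup.mem_centralizer_singleton_iff]; exact ha, rfl⟩
    have hbH : b.1.2 ∈ H := ⟨b, by
      rw [SetLike.mem_coe, Subgroup.mem_centralizer_singleton_iff]; exact hb, rfl⟩
    obtain ⟨p, ⟨u, hu, hup⟩, j, ⟨w, hw, hwj⟩, hp2, hj2, hne⟩ :=
      D.nonab H ⟨_, haH, _, hbH, hab⟩
    rw [SetLike.mem_coe, Subgroup.mem_centralizer_singleton_iff] at hu hw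
    rw [proj_apply] at hup hwj
    have h1 := sum_sq D hg hu (by rw [hup]; exact hp2)
    have h2 := sum_sq D hg hw (by rw [hwj]; exact hj2)
    have h3 : ∑ t, (u.1.1 t) ^ 2 = ∑ t, (w.1.1 t) ^ 2 := by
      apply mul_left_cancel₀ two_ne
      rw [h1, h2]
    apply hne
    rw [← hup, ← hwj, ← u.2.2, ← w.2.2, E_eq, E_eq, h3]

lemma isCA : IsCA (GG D) := by
  intro g hg a b ha hb
  by_cases hq : g.1.2 = 1
  · -- g in the kernel
    have hv : g.1.1 ≠ 0 := by
      intro h
      apply hg
      exact ext' D h hq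
    have key : ∀ u : GG D, u * g = g * u → u.1.2 = 1 := by
      intro u hu
      by_contra hne
      obtain ⟨r, hr⟩ := D.pow_z u.1.2 hne
      have hur : u ^ r * g = g * u ^ r := by
        have : Commute u g := hu
        exact (this.pow_left r).eq
      have hpr : (u ^ r).1.2 = D.z := by
        rw [← proj_apply, map_pow, proj_apply, hr]
      apply hv
      funext t
      have h1 := congrFun (congrArg (fun x : GG D => x.1.1) hur) t
      simp only [mul_fst, Pi.add_apply, tr, hpr, hq, mul_one] at h1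
      have h2 : g.1.1 (t * D.z) = - g.1.1 t := by rw [← D.z_central]; exact g.2.1 t
      rw [h2] at h1
      have h3 : 2 * g.1.1 t = 0 := by linear_combination -h1
      exact (mul_eq_zero.1 h3).resolve_left two_ne
    have ha1 := key a ha
    have hb1 := key b hb
    apply ext' D
    · rw [mul_fst, mul_fst, ha1, hb1]
      funext t
      simp only [Pi.add_apply, tr, mul_one]
      ring
    · rw [mul_snd, mul_snd, ha1, hb1]
  · obtain ⟨r, hr⟩ := D.pow_z _ hq
    have hpr : (g ^ r).1.2 = D.z := by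
      rw [← proj_apply, map_pow, proj_apply, hr]
    have ha' : Commute a g := ha
    have hb' : Commute b g := hb
    exact cent_z D hpr a b (ha'.pow_right r).eq (hb'.pow_right r).eq

lemma proj_surjective : Function.Surjective (proj D) := by
  intro q
  rcases D.χ_vals q with h | h
  · refine ⟨mkG D 0 q ⟨fun t => by simp, ?_⟩, rfl⟩
    show E 0 = D.χ q
    rw [h]
    unfold E
    simp
  · let v : Q → Z2 := fun t => (if t = 1 then 1 else 0) - (if t = D.z then 1 else 0)
    have hodd : Odd' D v := by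
      intro t
      have h1 : (D.z * t = 1) ↔ t = D.z := by
        constructor
        · intro h'
          calc t = D.z * (D.z * t) := by rw [← mul_assoc, D.z_sq, one_mul]
            _ = D.z := by rw [h', mul_one]
        · rintro rfl
          exact D.z_sq
      have h2 : (D.z * t = D.z) ↔ t = 1 := by simp
      simp only [v, h1, h2]
      ring
    refine ⟨mkG D v q ⟨hodd, ?_⟩, rfl⟩
    show E v = D.χ q
    rw [h, E_eq]
    have h3 : ∑ t, (v t) ^ 2 = 2 := by
      have h4 : ∀ t, (v t) ^ 2 = (if t = 1 then 1 else 0) + (if t = D.z then 1 else 0) := by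
        intro t
        simp only [v]
        by_cases ht : t = 1
        · subst ht
          rw [if_pos rfl, if_neg (Ne.symm D.z_ne)]
          ring
        · rw [if_neg ht]
          by_cases ht' : t = D.z
          · rw [if_pos ht']; ring
          · rw [if_neg ht']; ring
      simp only [h4, Finset.sum_add_distrib, Finset.sum_ite_eq', Finset.mem_univ, if_true]
      norm_num
    rw [h3, map_ofNat]

noncomputable instance topGG [TopologicalSpace Q] : TopologicalSpace (GG D) :=
  instTopologicalSpaceSubtype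

variable [TopologicalSpace Q] [DiscreteTopology Q]

lemma continuous_tr : Continuous fun x : Q × (Q → Z2) => tr x.1 x.2 := by
  rw [continuous_prod_of_discrete_left]
  intro q
  show Continuous fun v : Q → Z2 => tr q v
  unfold tr
  exact continuous_pi fun t => continuous_apply _

instance topGroup : IsTopologicalGroup (GG D) where
  continuous_mul := by
    have h1 : Continuous fun q : GG D × GG D => q.1.1 := continuous_subtype_val.comp continuous_fst
    have h2 : Continuous fun q : GG D × GG D => q.2.1 := continuous_subtype_val.comp continuous_snd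
    have h3 : Continuous fun q : GG D × GG D =>
        ((q.1.1.1 + tr q.1.1.2 q.2.1.1, q.1.1.2 * q.2.1.2) : (Q → Z2) × Q) := by
      refine Continuous.prodMk ?_ ?_
      · exact (continuous_fst.comp h1).add
          ((continuous_tr (Q := Q)).comp ((continuous_snd.comp h1).prodMk (continuous_fst.comp h2)))
      · exact (continuous_of_discreteTopology (f := fun p : Q × Q => p.1 * p.2)).comp
          ((continuous_snd.comp h1).prodMk (continuous_snd.comp h2))
    exact Continuous.subtype_mk h3 _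
  continuous_inv := by
    have h1 : Continuous fun q : GG D => q.1 := continuous_subtype_val
    have h3 : Continuous fun q : GG D =>
        ((-(tr q.1.2⁻¹ q.1.1), q.1.2⁻¹) : (Q → Z2) × Q) := by
      have hinv : Continuous fun q : GG D => q.1.2⁻¹ :=
        (continuous_of_discreteTopology (f := fun p : Q => p⁻¹)).comp (continuous_snd.comp h1)
      refine Continuous.prodMk ?_ hinv
      exact ((continuous_tr (Q := Q)).comp (hinv.prodMk (continuous_fst.comp h1))).neg
    exact Continuous.subtype_mk h3 _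

lemma isClosed_cond : IsClosed {x : (Q → Z2) × Q | Cond D x} := by
  have h1 : IsClosed {x : (Q → Z2) × Q | Odd' D x.1} := by
    have : {x : (Q → Z2) × Q | Odd' D x.1} = ⋂ t : Q, {x | x.1 (D.z * t) = - x.1 t} := by
      ext x; simp [Odd']
    rw [this]
    refine isClosed_iInter fun t => isClosed_eq ?_ ?_
    · exact (continuous_apply _).comp continuous_fst
    · exact ((continuous_apply _).comp continuous_fst).neg
  have h2 : IsClosed {x : (Q → Z2) × Q | E x.1 = D.χ x.2} := by
    refine isClosed_eq ?_ ?_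
    · unfold E
      refine continuous_finsetSum _ fun t _ => ?_
      exact (continuous_c.comp ((continuous_apply t).comp continuous_fst)).pow 2
    · exact (continuous_of_discreteTopology (f := D.χ)).comp continuous_snd
  exact h1.inter h2

instance compactGG [Finite Q] : CompactSpace (GG D) :=
  isCompact_iff_compactSpace.1 (isClosed_cond D).isCompact
instance t2GG : T2Space (GG D) := inferInstanceAs (T2Space {x : (Q → Z2) × Q // Cond D x})
instance tdGG : TotallyDisconnectedSpace (GG D) :=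
  inferInstanceAs (TotallyDisconnectedSpace {x : (Q → Z2) × Q // Cond D x})

lemma continuous_proj : Continuous (proj D) := continuous_snd.comp continuous_subtype_val

include D in
/-- summary of the construction -/
lemma summary : ∃ (G : Type) (_ : Group G) (_ : TopologicalSpace G),
    IsTopologicalGroup G ∧ CompactSpace G ∧ T2Space G ∧ TotallyDisconnectedSpace G ∧ IsCA G ∧
      ∃ N : Subgroup G, ∃ _ : N.Normal, IsClosed (N : Set G) ∧
        (∀ a ∈ N, ∀ b ∈ N, a * b = b * a) ∧ Nonempty (G ⧸ N ≃* Q) := by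
  refine ⟨GG D, inferInstance, inferInstance, inferInstance, inferInstance, inferInstance,
    inferInstance, isCA D, (proj D).ker, inferInstance, ?_, ?_, ?_⟩
  · exact (isClosed_discrete ({1} : Set Q)).preimage (continuous_proj D)
  · intro a ha b hb
    have ha1 : a.1.2 = 1 := ha
    have hb1 : b.1.2 = 1 := hb
    apply ext' D
    · rw [mul_fst, mul_fst, ha1, hb1]
      funext t
      simp only [Pi.add_apply, tr, mul_one]
      ring
    · rw [mul_snd, mul_snd, ha1, hb1]
  · exact ⟨QuotientGroup.quotientKerEquivOfSurjective (proj D) (proj_surjective D)⟩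

end construction

/-! ### Generalized quaternion groups -/

section quat

open QuaternionGroup

variable (k : ℕ)

abbrev QQ := QuaternionGroup (2 ^ (k + 1))

lemma a_pow (n : ℕ) (i : ZMod (2 * n)) (r : ℕ) :
    (a i : QuaternionGroup n) ^ r = a ((r : ZMod (2 * n)) * i) := by
  induction r with
  | zero => simp
  | succ r ih => rw [pow_succ, ih, a_mul_a]; congr 1; push_cast; ring

lemma mult_eq (i : ZMod (2 * 2 ^ (k + 1))) (hi : i ≠ 0) :
    ∃ r : ℕ, (r : ZMod (2 * 2 ^ (k + 1))) * i = ((2 ^ (k + 1) : ℕ) : ZMod (2 * 2 ^ (k + 1))) := by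
  have hne : i.val ≠ 0 := by
    intro h
    exact hi ((ZMod.val_eq_zero i).1 h)
  have hlt : i.val < 2 * 2 ^ (k + 1) := ZMod.val_lt i
  obtain ⟨s, o, ho, hso⟩ := Nat.exists_eq_two_pow_mul_odd hne
  have hs : s ≤ k + 1 := by
    by_contra hs
    push Not at hs
    have h1 : 2 ^ (k + 2) ≤ 2 ^ s := Nat.pow_le_pow_right (by norm_num) hs
    have h2 : 1 ≤ o := ho.pos
    have h3 : 2 ^ s * 1 ≤ 2 ^ s * o := Nat.mul_le_mul_left _ h2
    have h4 : 2 * 2 ^ (k + 1) = 2 ^ (k + 2) := by ring
    omega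
  refine ⟨2 ^ (k + 1 - s), ?_⟩
  have h1 : i = ((i.val : ℕ) : ZMod (2 * 2 ^ (k + 1))) := by
    rw [ZMod.natCast_val, ZMod.cast_id]
  rw [h1, ← Nat.cast_mul, hso]
  obtain ⟨l, hl⟩ := ho
  have h2 : 2 ^ (k + 1 - s) * (2 ^ s * o) = 2 * 2 ^ (k + 1) * l + 2 ^ (k + 1) := by
    rw [← mul_assoc, ← pow_add, Nat.sub_add_cancel hs, hl]
    ring
  rw [h2, Nat.cast_add, Nat.cast_mul, ZMod.natCast_self, zero_mul, zero_add]

def chi : QQ k → Z4
  | a _ => 0
  | xa _ => 2

lemma z_add : ((2 ^ (k + 1) : ℕ) : ZMod (2 * 2 ^ (k + 1))) + ((2 ^ (k + 1) : ℕ) : ZMod (2 * 2 ^ (k + 1))) = 0 := by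
  rw [← Nat.cast_add, ← two_mul, ZMod.natCast_self]

lemma z_ne0 : ((2 ^ (k + 1) : ℕ) : ZMod (2 * 2 ^ (k + 1))) ≠ 0 := by
  intro h
  rw [ZMod.natCast_eq_zero_iff] at h
  have h1 := Nat.le_of_dvd (by positivity) h
  have h2 : 0 < 2 ^ (k + 1) := by positivity
  omega

/-- from a power of `x` whose double is nonzero we get an element with square `z` -/
lemma exists_sq (H : Subgroup (QQ k)) (i : ZMod (2 * 2 ^ (k + 1))) (hi : i + i ≠ 0)
    (hH : (a i : QQ k) ∈ H) :
    ∃ p ∈ H, p * p = a ((2 ^ (k + 1) : ℕ) : ZMod (2 * 2 ^ (k + 1))) ∧ chi k p = 0 := by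
  obtain ⟨r, hr⟩ := mult_eq k (i + i) hi
  refine ⟨(a i) ^ r, pow_mem hH r, ?_, ?_⟩
  · rw [← pow_two, ← pow_mul, mul_comm, pow_mul, pow_two, a_mul_a, a_pow, hr]
  · rw [a_pow]; rfl

def quatData : Data (QQ k) where
  z := a ((2 ^ (k + 1) : ℕ) : ZMod (2 * 2 ^ (k + 1)))
  χ := chi k
  z_central := by
    rintro (i | i)
    · rw [a_mul_a, a_mul_a]
      congr 1
      ring
    · rw [a_mul_xa, xa_mul_a]
      congr 1
      have := z_add k
      linear_combination -this
  z_sq := by
    rw [a_mul_a, z_add, a_zero]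
  z_ne := by
    rw [one_def]
    intro h
    injection h with h
    exact z_ne0 k h
  χ_mul := by
    have h4 : (2 : Z4) + 2 = 0 := by decide
    rintro (i | i) (j | j)
    · rw [a_mul_a]; simp [chi]
    · rw [a_mul_xa]; simp [chi]
    · rw [xa_mul_a]; simp [chi]
    · rw [xa_mul_xa]; simp only [chi]; exact h4.symm
  χ_two := by
    have h4 : (2 : Z4) + 2 = 0 := by decide
    rintro (i | i)
    · simp [chi]
    · simp only [chi]; exact h4
  χ_vals := by
    rintro (i | i)
    · left; rfl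
    · right; rfl
  pow_z := by
    rintro (i | i) hi
    · have hi0 : i ≠ 0 := by
        rintro rfl
        exact hi a_zero
      obtain ⟨r, hr⟩ := mult_eq k i hi0
      exact ⟨r, by rw [a_pow, hr]⟩
    · exact ⟨2, xa_sq i⟩
  nonab := by
    have h02 : (0 : Z4) ≠ 2 := by decide
    have hxa : ∀ i, (xa i : QQ k) * xa i = a ((2 ^ (k + 1) : ℕ) : ZMod (2 * 2 ^ (k + 1))) := by
      intro i
      rw [← pow_two]
      exact xa_sq i
    rintro H ⟨p, hp, q, hq, hpq⟩
    rcases p with i | i <;> rcases q with j | j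
    · exfalso
      apply hpq
      rw [a_mul_a, a_mul_a]
      congr 1
      ring
    · have hi : i + i ≠ 0 := by
        intro h
        apply hpq
        rw [a_mul_xa, xa_mul_a]
        congr 1
        linear_combination -h
      obtain ⟨w, hw, hw2, hwc⟩ := exists_sq k H i hi hp
      exact ⟨w, hw, xa j, hq, hw2, hxa j, by rw [hwc]; exact h02⟩
    · have hj : j + j ≠ 0 := by
        intro h
        apply hpq
        rw [a_mul_xa, xa_mul_a]
        congr 1
        linear_combination h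
      obtain ⟨w, hw, hw2, hwc⟩ := exists_sq k H j hj hq
      exact ⟨w, hw, xa i, hp, hw2, hxa i, by rw [hwc]; exact h02⟩
    · have hprod : (a (((2 ^ (k + 1) : ℕ) : ZMod (2 * 2 ^ (k + 1))) + j - i) : QQ k) ∈ H := by
        have := mul_mem hp hq
        rw [xa_mul_xa] at this
        exact this
      have hne : (((2 ^ (k + 1) : ℕ) : ZMod (2 * 2 ^ (k + 1))) + j - i) +
          (((2 ^ (k + 1) : ℕ) : ZMod (2 * 2 ^ (k + 1))) + j - i) ≠ 0 := by
        intro h
        apply hpq
        rw [xa_mul_xa, xa_mul_xa]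
        congr 1
        have := z_add k
        linear_combination h - this
      obtain ⟨w, hw, hw2, hwc⟩ := exists_sq k H _ hne hprod
      exact ⟨w, hw, xa i, hp, hw2, hxa i, by rw [hwc]; exact h02⟩

end quat

/-- For every `n ≥ 3` (in particular for every `n ≥ 4`) there is a profinite CA-group `G` with a
closed abelian normal subgroup `N` such that `G / N` is the generalized quaternion group of order
`2 ^ n`. -/
theorem result : ∀ n : ℕ, 3 ≤ n → ∃ (G : Type) (_ : Group G) (_ : TopologicalSpace G),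
    IsTopologicalGroup G ∧ CompactSpace G ∧ T2Space G ∧ TotallyDisconnectedSpace G ∧ IsCA G ∧
      ∃ N : Subgroup G, ∃ _ : N.Normal, IsClosed (N : Set G) ∧
        (∀ a ∈ N, ∀ b ∈ N, a * b = b * a) ∧
        Nonempty (G ⧸ N ≃* QuaternionGroup (2 ^ (n - 2))) := by
  intro n hn
  obtain ⟨k, rfl⟩ : ∃ k, n = k + 3 := ⟨n - 3, by omega⟩
  have h : k + 3 - 2 = k + 1 := by omega
  rw [h]
  let _ : TopologicalSpace (QQ k) := ⊥
  have _ : DiscreteTopology (QQ k) := ⟨rfl⟩
  exact summary (quatData k)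

end Pool.Agent.Results.MP_427463_al.QuaternionQuotientCA
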